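import Pool.Agent.U84.AWQ.Stm

/-!
# Project AWQ, package GLUE: gluing of bounded families in orthogonal corners
-/

set_option autoImplicit false

namespace Pool.Agent.U843.AWQ

open Pool.Agent.R456.CL Pool.Agent.U84.AWQ Filter Topology

universe u

section

variable {A : Type u} [CStarAlgebra A]

lemma pj_norm {p : A} (hp : PJ p) : ‖p‖ ≤ 1 := by
  have h1 : ‖star p * p‖ = ‖p‖ * ‖p‖ := CStarRing.norm_star_mul_self
  have h2 : star p * p = p := by rw [hp.isSelfAdjoint.star_eq, hp.isIdempotentElem.eq]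
  rw [h2] at h1
  nlinarith [norm_nonneg p]

lemma pj_sum {κ : Type} {p : κ → A} (hp : ∀ i, PJ (p i)) (ho : ∀ i j, i ≠ j → p i * p j = 0)
    (S : Finset κ) : PJ (∑ j ∈ S, p j) := by
  refine ⟨?_, ?_⟩
  · rw [IsIdempotentElem, Finset.sum_mul]
    refine Finset.sum_congr rfl fun j hj => ?_
    rw [Finset.mul_sum, Finset.sum_eq_single j]
    · exact (hp j).isIdempotentElem.eq
    · intro k _ hk
      exact ho j k (Ne.symm hk)
    · intro h
      exact absurd hj h
  · rw [IsSelfAdjoint, star_sum]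
    exact Finset.sum_congr rfl fun j _ => (hp j).isSelfAdjoint.star_eq

/-- the norm of a linear combination of orthogonal projections -/
lemma comb_norm (hN : PNorm A) {κ : Type} [Fintype κ] {p : κ → A} {g : A} (hg : PJ g)
    (hp : ∀ i, PJ (p i)) (ho : ∀ i j, i ≠ j → p i * p j = 0) (hs : ∑ i, p i = g) {c : κ → ℂ}
    {δ : ℝ} (hδ : 0 ≤ δ) (hc : ∀ i, ‖c i • p i‖ ≤ δ) : ‖∑ i, c i • p i‖ ≤ δ := by
  classical
  have h1 : ∀ i, p i * ∑ j, c j • p j = c i • p i := by
    intro i
    rw [Finset.mul_sum, Finset.sum_eq_single i]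
    · rw [mul_smul_comm, (hp i).isIdempotentElem.eq]
    · intro j _ hj
      rw [mul_smul_comm, ho i j (Ne.symm hj), smul_zero]
    · intro h
      exact absurd (Finset.mem_univ i) h
  have h2 : ∀ i, (∑ j, c j • p j) * p i = c i • p i := by
    intro i
    rw [Finset.sum_mul, Finset.sum_eq_single i]
    · rw [smul_mul_assoc, (hp i).isIdempotentElem.eq]
    · intro j _ hj
      rw [smul_mul_assoc, ho j i hj, smul_zero]
    · intro h
      exact absurd (Finset.mem_univ i) h
  refine hN (ULift.{u} κ) (fun i => p i.down) g _ δ hδ (fun i => hp i.down)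
    (fun i j hij => ho _ _ fun h => hij (ULift.ext _ _ h)) ⟨hg, fun i => ?_, fun x hx => ?_⟩
    ?_ ?_ (fun i => ?_) (fun i => ?_)
  · rw [← hs, Finset.mul_sum, Finset.sum_eq_single i.down]
    · exact (hp i.down).isIdempotentElem.eq
    · intro j _ hj
      exact ho _ _ (Ne.symm hj)
    · intro h
      exact absurd (Finset.mem_univ _) h
  · rw [← hs, Finset.mul_sum]
    exact Finset.sum_eq_zero fun j _ => hx (ULift.up j)
  · rw [← hs, Finset.sum_mul]
    exact Finset.sum_congr rfl fun j _ => h1 j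
  · rw [← hs, Finset.mul_sum]
    exact Finset.sum_congr rfl fun j _ => h2 j
  · rw [h1, h2]
  · rw [h1]
    exact hc i.down

/-- approximation of a self-adjoint element by a combination with few coefficients -/
lemma quant (hSa : PSa A) (hN : PNorm A) {g a : A} (hg : PJ g) (ha : star a = a)
    (hag : a * g = a) {M δ : ℝ} (hM : ‖a‖ ≤ M) (hδ : 0 < δ) (N : ℕ)
    (hNN : M + δ ≤ δ * ((N : ℝ) - 1)) :
    ∃ Q : ℤ → A, (∀ m, PJ (Q m)) ∧ (∀ m, Q m * g = Q m) ∧
      ‖(∑ m ∈ Finset.Icc (-(N : ℤ)) N, ((δ * m : ℝ) : ℂ) • Q m) - a‖ ≤ 2 * δ := by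
  classical
  obtain ⟨κ, hκ, p, l, hp, ho, hs, hc, hn⟩ := hSa g a hg ha hag δ hδ
  let f : κ → ℤ := fun j => if p j = 0 then 0 else ⌊l j / δ⌋
  have hM0 : 0 ≤ M := (norm_nonneg a).trans hM
  have hl : ∀ j, p j ≠ 0 → |l j| ≤ M + δ := by
    intro j hj
    have h1 : p j * (a - ∑ i, (l i : ℂ) • p i) = p j * a - (l j : ℂ) • p j := by
      rw [mul_sub, Finset.mul_sum, Finset.sum_eq_single j]
      · rw [mul_smul_comm, (hp j).isIdempotentElem.eq]
      · intro i _ hi
        rw [mul_smul_comm, ho j i (Ne.symm hi), smul_zero]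
      · intro h
        exact absurd (Finset.mem_univ j) h
    have h2 : ‖(l j : ℂ) • p j‖ ≤ M + δ := by
      have h3 : (l j : ℂ) • p j = p j * a - p j * (a - ∑ i, (l i : ℂ) • p i) := by
        rw [h1]; abel
      rw [h3]
      refine (norm_sub_le _ _).trans ?_
      have h4 : ‖p j * a‖ ≤ M := (norm_mul_le _ _).trans
        ((mul_le_mul (pj_norm (hp j)) hM (norm_nonneg _) zero_le_one).trans (by linarith))
      have h5 : ‖p j * (a - ∑ i, (l i : ℂ) • p i)‖ ≤ δ := (norm_mul_le _ _).trans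
        ((mul_le_mul (pj_norm (hp j)) hn (norm_nonneg _) zero_le_one).trans (by linarith))
      linarith
    have h6 : ‖p j‖ = 1 := by
      have h1 : ‖star (p j) * p j‖ = ‖p j‖ * ‖p j‖ := CStarRing.norm_star_mul_self
      have h2 : star (p j) * p j = p j := by
        rw [(hp j).isSelfAdjoint.star_eq, (hp j).isIdempotentElem.eq]
      rw [h2] at h1
      have h3 : 0 < ‖p j‖ := norm_pos_iff.mpr hj
      nlinarith
    rw [norm_smul, h6, mul_one, Complex.norm_real, Real.norm_eq_abs] at h2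
    exact h2
  have hf : ∀ j, f j ∈ Finset.Icc (-(N : ℤ)) N := by
    intro j
    rw [Finset.mem_Icc]
    by_cases hj : p j = 0
    · simp only [f, hj, if_true]
      constructor <;> omega
    · simp only [f, hj, if_false]
      have h1 := abs_le.mp (hl j hj)
      have h2 : l j / δ ≤ (N : ℝ) - 1 := by
        rw [div_le_iff₀ hδ]; linarith
      have h3 : -((N : ℝ) - 1) ≤ l j / δ := by
        rw [le_div_iff₀ hδ]; linarith
      constructor
      · have h4 : -((N : ℤ)) ≤ ⌊l j / δ⌋ := by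
          rw [Int.le_floor]; push_cast; linarith
        exact h4
      · have h4 : (⌊l j / δ⌋ : ℝ) ≤ l j / δ := Int.floor_le _
        have h5 : ((⌊l j / δ⌋ : ℤ) : ℝ) ≤ ((N : ℤ) : ℝ) := by push_cast; linarith
        exact_mod_cast h5
  refine ⟨fun m => ∑ j with f j = m, p j, fun m => pj_sum hp ho _, fun m => ?_, ?_⟩
  · rw [← hs, Finset.sum_mul]
    refine Finset.sum_congr rfl fun j _ => ?_
    rw [Finset.mul_sum, Finset.sum_eq_single j]
    · exact (hp j).isIdempotentElem.eq
    · intro i _ hi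
      exact ho _ _ (Ne.symm hi)
    · intro h
      exact absurd (Finset.mem_univ _) h
  · have h1 : ∑ m ∈ Finset.Icc (-(N : ℤ)) N, ((δ * m : ℝ) : ℂ) • (∑ j with f j = m, p j)
        = ∑ j, ((δ * f j : ℝ) : ℂ) • p j := by
      rw [← Finset.sum_fiberwise_of_maps_to (s := Finset.univ) (t := Finset.Icc (-(N : ℤ)) N)
        (g := f) (fun j _ => hf j)]
      refine Finset.sum_congr rfl fun m _ => ?_
      rw [Finset.smul_sum]
      refine Finset.sum_congr rfl fun j hj => ?_
      rw [(Finset.mem_filter.mp hj).2]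
    rw [h1]
    have h2 : (∑ j, ((δ * f j : ℝ) : ℂ) • p j) - a
        = (∑ j, (((δ * f j - l j : ℝ)) : ℂ) • p j) - (a - ∑ j, (l j : ℂ) • p j) := by
      have h3 : ∑ j, (((δ * f j - l j : ℝ)) : ℂ) • p j
          = (∑ j, ((δ * f j : ℝ) : ℂ) • p j) - ∑ j, (l j : ℂ) • p j := by
        rw [← Finset.sum_sub_distrib]
        refine Finset.sum_congr rfl fun j _ => ?_
        rw [Complex.ofReal_sub, sub_smul]
      rw [h3]; abel
    rw [h2]
    have h4 : ‖∑ j, (((δ * f j - l j : ℝ)) : ℂ) • p j‖ ≤ δ := by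
      refine comb_norm hN hg hp ho hs hδ.le fun j => ?_
      by_cases hj : p j = 0
      · rw [hj, smul_zero, norm_zero]; exact hδ.le
      · rw [norm_smul, Complex.norm_real, Real.norm_eq_abs]
        have h5 : |δ * (f j : ℝ) - l j| ≤ δ := by
          simp only [f, hj, if_false]
          have h6 : (⌊l j / δ⌋ : ℝ) ≤ l j / δ := Int.floor_le _
          have h7 : l j / δ < ⌊l j / δ⌋ + 1 := Int.lt_floor_add_one _
          have h8 : δ * (l j / δ) = l j := by field_simp
          have h9 : δ * (⌊l j / δ⌋ : ℝ) ≤ l j := by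
            rw [← h8] ; exact mul_le_mul_of_nonneg_left (by rw [h8]; exact h6) hδ.le
          have h10 : l j ≤ δ * (⌊l j / δ⌋ : ℝ) + δ := by
            have h11 : δ * (l j / δ) ≤ δ * ((⌊l j / δ⌋ : ℝ) + 1) :=
              mul_le_mul_of_nonneg_left h7.le hδ.le
            rw [h8] at h11
            linarith
          rw [abs_le]
          constructor <;> linarith
        calc |δ * (f j : ℝ) - l j| * ‖p j‖ ≤ δ * 1 :=
              mul_le_mul h5 (pj_norm (hp j)) (norm_nonneg _) hδ.le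
          _ = δ := mul_one δ
    calc _ ≤ _ := norm_sub_le _ _
      _ ≤ δ + δ := add_le_add h4 hn
      _ = 2 * δ := by ring

/-- approximate gluing of self-adjoint families -/
lemma glue_approx (hSa : PSa A) (hSup : PSupO A) (hN : PNorm A) {ι : Type u} {r x : ι → A}
    {E : A} {M δ : ℝ} (hδ : 0 < δ) (hr : ∀ i, PJ (r i)) (ho : ∀ i j, i ≠ j → r i * r j = 0)
    (hE : IsSup r E) (hx : ∀ i, star (x i) = x i) (hxr : ∀ i, x i * r i = x i)
    (hM : ∀ i, ‖x i‖ ≤ M) :
    ∃ X : A, E * X = X ∧ X * E = X ∧ (∀ i, r i * X = X * r i) ∧ ∀ i, ‖r i * X - x i‖ ≤ 2 * δ := by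
  classical
  obtain ⟨N, hNN⟩ : ∃ N : ℕ, M + δ ≤ δ * ((N : ℝ) - 1) := by
    obtain ⟨N, hN⟩ := exists_nat_ge ((M + δ) / δ + 1)
    refine ⟨N, ?_⟩
    have h1 : (M + δ) / δ ≤ (N : ℝ) - 1 := by linarith
    rw [div_le_iff₀ hδ] at h1
    linarith
  choose Q hQ hQg hQn using fun i => quant hSa hN (hr i) (hx i) (hxr i) (hM i) hδ N hNN
  have hrQ : ∀ i m, r i * Q i m = Q i m := by
    intro i m
    have h1 := congrArg star (hQg i m)
    rwa [star_mul, (hr i).isSelfAdjoint.star_eq, (hQ i m).isSelfAdjoint.star_eq] at h1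
  have hQo : ∀ m i j, i ≠ j → Q i m * Q j m = 0 := by
    intro m i j hij
    rw [← hQg i m, ← hrQ j m, mul_assoc, ← mul_assoc (r i), ho i j hij, zero_mul, mul_zero]
  choose P hP using fun m => hSup ι (fun i => Q i m) (fun i => hQ i m) (hQo m)
  have hPs : ∀ m, star (P m) = P m := fun m => (hP m).1.isSelfAdjoint.star_eq
  have hrP : ∀ i m, r i * P m = Q i m := by
    intro i m
    have h1 : (r i - Q i m) * P m = 0 := by
      refine (hP m).2.2 _ fun j => ?_
      change (r i - Q i m) * Q j m = 0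
      by_cases hij : i = j
      · subst hij
        rw [sub_mul, hrQ, (hQ i m).isIdempotentElem.eq, sub_self]
      · rw [sub_mul, hQo m i j hij, sub_zero, ← hrQ j m, ← mul_assoc, ho i j hij, zero_mul]
    rw [sub_mul, sub_eq_zero] at h1
    rw [h1]
    exact (hP m).2.1 i
  have hPr : ∀ i m, P m * r i = Q i m := by
    intro i m
    have h1 := congrArg star (hrP i m)
    rwa [star_mul, (hr i).isSelfAdjoint.star_eq, hPs, (hQ i m).isSelfAdjoint.star_eq] at h1
  have hEs : star E = E := hE.1.isSelfAdjoint.star_eq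
  have hEr : ∀ i, E * r i = r i := by
    intro i
    have h1 := congrArg star (hE.2.1 i)
    rwa [star_mul, hEs, (hr i).isSelfAdjoint.star_eq] at h1
  have hEP : ∀ m, E * P m = P m := by
    intro m
    have h1 : (1 - E) * P m = 0 := by
      refine (hP m).2.2 _ fun j => ?_
      change (1 - E) * Q j m = 0
      rw [← hrQ j m, ← mul_assoc, sub_mul, one_mul, hEr, sub_self, zero_mul]
    rw [sub_mul, one_mul, sub_eq_zero] at h1
    exact h1.symm
  have hPE : ∀ m, P m * E = P m := by
    intro m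
    have h1 := congrArg star (hEP m)
    rwa [star_mul, hEs, hPs] at h1
  refine ⟨∑ m ∈ Finset.Icc (-(N : ℤ)) N, ((δ * m : ℝ) : ℂ) • P m, ?_, ?_, fun i => ?_,
    fun i => ?_⟩
  · rw [Finset.mul_sum]
    exact Finset.sum_congr rfl fun m _ => by rw [mul_smul_comm, hEP]
  · rw [Finset.sum_mul]
    exact Finset.sum_congr rfl fun m _ => by rw [smul_mul_assoc, hPE]
  · rw [Finset.mul_sum, Finset.sum_mul]
    exact Finset.sum_congr rfl fun m _ => by rw [mul_smul_comm, smul_mul_assoc, hrP, hPr]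
  · have h1 : r i * ∑ m ∈ Finset.Icc (-(N : ℤ)) N, ((δ * m : ℝ) : ℂ) • P m
        = ∑ m ∈ Finset.Icc (-(N : ℤ)) N, ((δ * m : ℝ) : ℂ) • Q i m := by
      rw [Finset.mul_sum]
      exact Finset.sum_congr rfl fun m _ => by rw [mul_smul_comm, hrP]
    rw [h1]
    exact hQn i

/-- gluing of self-adjoint families -/
lemma glue_sa (hSa : PSa A) (hSup : PSupO A) (hN : PNorm A) {ι : Type u} {r x : ι → A}
    {E : A} {M : ℝ} (hr : ∀ i, PJ (r i)) (ho : ∀ i j, i ≠ j → r i * r j = 0)
    (hE : IsSup r E) (hx : ∀ i, star (x i) = x i) (hxr : ∀ i, x i * r i = x i)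
    (hM : ∀ i, ‖x i‖ ≤ M) :
    ∃ X : A, E * X = X ∧ X * E = X ∧ (∀ i, r i * X = x i) ∧ ∀ i, X * r i = x i := by
  have h0 : ∀ n : ℕ, (0 : ℝ) < 1 / ((n : ℝ) + 1) := fun n => Nat.one_div_pos_of_nat
  choose X hEX hXE hc hn using fun n : ℕ =>
    glue_approx hSa hSup hN (h0 n) hr ho hE hx hxr hM
  have hd : ∀ n m : ℕ, ‖X n - X m‖ ≤ 2 * (1 / ((n : ℝ) + 1)) + 2 * (1 / ((m : ℝ) + 1)) := by
    intro n m
    refine hN ι r E (X n - X m) _ (by have := h0 n; have := h0 m; positivity) hr ho hE ?_ ?_ ?_ ?_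
    · rw [mul_sub, hEX, hEX]
    · rw [sub_mul, hXE, hXE]
    · intro i
      rw [mul_sub, sub_mul, hc, hc]
    · intro i
      have h1 : r i * (X n - X m) = (r i * X n - x i) - (r i * X m - x i) := by
        rw [mul_sub]; abel
      rw [h1]
      exact (norm_sub_le _ _).trans (add_le_add (hn n i) (hn m i))
  have hlim : Tendsto (fun n : ℕ => 2 * (1 / ((n : ℝ) + 1))) atTop (𝓝 0) := by
    have := (tendsto_one_div_add_atTop_nhds_zero_nat (𝕜 := ℝ)).const_mul 2
    simpa using this
  have hcau : CauchySeq X := by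
    rw [Metric.cauchySeq_iff']
    intro ε hε
    obtain ⟨K, hK⟩ := (Metric.tendsto_atTop.mp hlim) (ε / 2) (by linarith)
    refine ⟨K, fun n hn' => ?_⟩
    rw [dist_eq_norm]
    have h1 := hK n hn'
    have h2 := hK K le_rfl
    rw [Real.dist_eq, sub_zero] at h1 h2
    have h3 := (abs_lt.mp h1).2
    have h4 := (abs_lt.mp h2).2
    linarith [hd n K]
  obtain ⟨Y, hY⟩ := cauchySeq_tendsto_of_complete hcau
  have hrY : ∀ i, r i * Y = x i := by
    intro i
    have h1 : Tendsto (fun n => r i * X n) atTop (𝓝 (r i * Y)) := hY.const_mul _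
    have h2 : Tendsto (fun n => r i * X n) atTop (𝓝 (x i)) := by
      rw [tendsto_iff_norm_sub_tendsto_zero]
      exact squeeze_zero (fun n => norm_nonneg _) (fun n => hn n i) hlim
    exact tendsto_nhds_unique h1 h2
  refine ⟨Y, ?_, ?_, hrY, fun i => ?_⟩
  · have h1 : Tendsto (fun n => E * X n) atTop (𝓝 (E * Y)) := hY.const_mul _
    simp only [hEX] at h1
    exact tendsto_nhds_unique h1 hY
  · have h1 : Tendsto (fun n => X n * E) atTop (𝓝 (Y * E)) := hY.mul_const _
    simp only [hXE] at h1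
    exact tendsto_nhds_unique h1 hY
  · have h1 : Tendsto (fun n => X n * r i) atTop (𝓝 (Y * r i)) := hY.mul_const _
    have h2 : Tendsto (fun n => r i * X n) atTop (𝓝 (r i * Y)) := hY.const_mul _
    simp only [hc] at h2
    rw [← hrY i]
    exact tendsto_nhds_unique h1 h2

end

theorem t_GLUE : S_GLUE.{u} := by
  intro A _ hSa hSup hN ι r x E M hr ho hE hrx hxr hM
  have hrs : ∀ i, star (r i) = r i := fun i => (hr i).isSelfAdjoint.star_eq
  have hsr : ∀ i, star (x i) * r i = star (x i) := by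
    intro i
    have h1 := congrArg star (hrx i)
    rwa [star_mul, hrs] at h1
  have hn : ∀ i, ‖star (x i)‖ ≤ M := fun i => by rw [norm_star]; exact hM i
  obtain ⟨X1, hE1, h1E, h1, h1'⟩ := glue_sa hSa hSup hN (x := fun i => x i + star (x i))
    (M := 2 * M) hr ho hE (fun i => by rw [star_add, star_star, add_comm])
    (fun i => by rw [add_mul, hxr, hsr])
    (fun i => (norm_add_le _ _).trans (by linarith [hM i, hn i]))
  obtain ⟨X2, hE2, h2E, h2, h2'⟩ := glue_sa hSa hSup hN
    (x := fun i => Complex.I • (x i - star (x i))) (M := 2 * M) hr ho hE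
    (fun i => by
      rw [star_smul, star_sub, star_star, Complex.star_def, Complex.conj_I, neg_smul, ← smul_neg,
        neg_sub])
    (fun i => by rw [smul_mul_assoc, sub_mul, hxr, hsr])
    (fun i => by
      rw [norm_smul, Complex.norm_I, one_mul]
      exact (norm_sub_le _ _).trans (by linarith [hM i, hn i]))
  have key : ∀ i, (1 / 2 : ℂ) • (x i + star (x i))
      - (Complex.I / 2) • (Complex.I • (x i - star (x i))) = x i := by
    intro i
    rw [smul_smul]
    have h3 : Complex.I / 2 * Complex.I = -(1 / 2) := by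
      rw [div_mul_eq_mul_div, Complex.I_mul_I]; norm_num
    rw [h3, neg_smul, sub_neg_eq_add, ← smul_add]
    have h4 : x i + star (x i) + (x i - star (x i)) = (2 : ℂ) • x i := by
      rw [two_smul]; abel
    rw [h4, smul_smul]
    norm_num
  refine ⟨(1 / 2 : ℂ) • X1 - (Complex.I / 2) • X2, ?_, ?_, fun i => ?_, fun i => ?_⟩
  · rw [mul_sub, mul_smul_comm, mul_smul_comm, hE1, hE2]
  · rw [sub_mul, smul_mul_assoc, smul_mul_assoc, h1E, h2E]
  · rw [mul_sub, mul_smul_comm, mul_smul_comm, h1, h2]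
    exact key i
  · rw [sub_mul, smul_mul_assoc, smul_mul_assoc, h1', h2']
    exact key i

end Pool.Agent.U843.AWQ
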